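import Pool.Agent.P.MP_78c350_an.Nowhere

namespace Pool.Agent.Results.MP_78c350_an.NowherePoor

/-- `F` is a free filter: it is proper and contains every cofinite set. -/
def IsFreeFilter (F : Filter ℕ) : Prop :=
  ∅ ∉ F ∧ ∀ A : Set ℕ, Aᶜ.Finite → A ∈ F

/-- The ideal of `F`: complements of members of `F`. -/
def idealOf (F : Filter ℕ) : Set (Set ℕ) := {B | ∃ A ∈ F, B = Aᶜ}

/-- The grill of `F`: the sets outside the ideal of `F`. -/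
def grillOf (F : Filter ℕ) : Set (Set ℕ) := (idealOf F)ᶜ

/-- `F` is poor: every family of pairwise `F`-almost disjoint sets of the grill is at most
countable. -/
def IsPoor (F : Filter ℕ) : Prop :=
  ∀ 𝒜 : Set (Set ℕ), 𝒜 ⊆ grillOf F → (𝒜.Pairwise fun A B => A ∩ B ∈ idealOf F) → 𝒜.Countable

/-- `F` is conglomerated: there are pairwise disjoint sets `D n` of the ideal such that the union
of every infinite subfamily lies in the grill. -/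
def IsConglomerated (F : Filter ℕ) : Prop :=
  ∃ D : ℕ → Set ℕ, (Pairwise fun m n => Disjoint (D m) (D n)) ∧ (∀ n, D n ∈ idealOf F) ∧
    ∀ M : Set ℕ, M.Infinite → (⋃ n ∈ M, D n) ∈ grillOf F

theorem result : ∃ F : Filter ℕ, IsFreeFilter F ∧ ¬ IsPoor F ∧ ¬ IsConglomerated F ∧
    ∀ A ∈ grillOf F, ∃ 𝒜 : Set (Set ℕ), Cardinal.mk 𝒜 = Cardinal.continuum ∧ 𝒜 ⊆ grillOf F ∧
      (∀ B ∈ 𝒜, B ⊆ A) ∧ 𝒜.Pairwise fun B C => B ∩ C ∈ idealOf F := by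
  obtain ⟨F, h0, h1, h2, h3⟩ := Pool.Agent.P.MP_78c350_an.main_nowhere
  have hI : ∀ B : Set ℕ, B ∈ idealOf F ↔ Bᶜ ∈ F := fun B =>
    ⟨fun ⟨A, hA, hB⟩ => by rw [hB, compl_compl]; exact hA, fun h => ⟨Bᶜ, h, (compl_compl B).symm⟩⟩
  have hG : ∀ B : Set ℕ, B ∈ grillOf F ↔ Bᶜ ∉ F := fun B => not_congr (hI B)
  have key : ∀ A ∈ grillOf F, ∃ 𝒜 : Set (Set ℕ), Cardinal.mk 𝒜 = Cardinal.continuum ∧
      𝒜 ⊆ grillOf F ∧ (∀ B ∈ 𝒜, B ⊆ A) ∧ 𝒜.Pairwise fun B C => B ∩ C ∈ idealOf F := by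
    intro A hA
    obtain ⟨B, b1, b2, b3⟩ := h3 A ((hG A).1 hA)
    have hinj : Function.Injective B := by
      intro s t hst
      by_contra hne
      have h4 : (B s ∩ B t)ᶜ ∈ F := b3 hne
      rw [hst, Set.inter_self] at h4
      exact b2 t h4
    refine ⟨Set.range B, ?_, ?_, ?_, ?_⟩
    · rw [Cardinal.mk_range_eq B hinj, Cardinal.mk_set_nat]
    · rintro _ ⟨t, rfl⟩
      exact (hG _).2 (b2 t)
    · rintro _ ⟨t, rfl⟩
      exact b1 t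
    · rintro _ ⟨s, rfl⟩ _ ⟨t, rfl⟩ hst
      exact (hI _).2 (b3 fun h => hst (h ▸ rfl))
  refine ⟨F, ⟨h0, h1⟩, fun h => ?_, ?_, key⟩
  · obtain ⟨𝒜, a1, a2, -, a3⟩ := key Set.univ ((hG _).2 (by rwa [Set.compl_univ]))
    have h4 := Cardinal.le_aleph0_iff_set_countable.2 (h 𝒜 a2 a3)
    rw [a1] at h4
    exact Cardinal.aleph0_lt_continuum.not_ge h4
  · rintro ⟨D, hD1, hD2, hD3⟩
    exact h2 ⟨D, hD1, fun n => (hI _).1 (hD2 n), fun M hM => (hG _).1 (hD3 M hM)⟩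

end Pool.Agent.Results.MP_78c350_an.NowherePoor
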